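import Pool.Agent.H25.DP.Targets
import Pool.Agent.H25.DL.BA2
import Pool.Agent.H92.DL.FU

/-!
# Two dilations: the average of the product of blocks over a small set
-/

set_option autoImplicit false

open Complex MeasureTheory Set Pool.Agent.H25.DL Pool.Agent.H25.DP

namespace Pool.Agent.H52.DP.BD1

lemma intOn {E : Set ℝ} {H K : ℝ} (hE : E ⊆ Icc H K) {P : ℝ → ℝ} (hP : Continuous P) :
    IntegrableOn P E volume :=
  (hP.continuousOn.integrableOn_compact isCompact_Icc).mono_set hE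

/-- Cauchy-Schwarz -/
lemma cs {E : Set ℝ} {H K : ℝ} (hE : E ⊆ Icc H K) {P Q : ℝ → ℝ} (hP : Continuous P)
    (hQ : Continuous Q) :
    (∫ t in E, P t * Q t) ^ 2 ≤ (∫ t in E, P t ^ 2) * ∫ t in E, Q t ^ 2 := by
  have i1 : IntegrableOn (fun t => P t ^ 2) E volume := intOn hE (by fun_prop)
  have i2 : IntegrableOn (fun t => P t * Q t) E volume := intOn hE (by fun_prop)
  have i3 : IntegrableOn (fun t => Q t ^ 2) E volume := intOn hE (by fun_prop)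
  have key : ∀ x : ℝ, 0 ≤ (∫ t in E, Q t ^ 2) * (x * x) + (-2 * ∫ t in E, P t * Q t) * x +
      ∫ t in E, P t ^ 2 := by
    intro x
    have h1 : 0 ≤ ∫ t in E, (P t - x * Q t) ^ 2 := integral_nonneg fun t => sq_nonneg _
    have h2 : ∫ t in E, (P t - x * Q t) ^ 2 =
        (∫ t in E, (P t ^ 2 - (2 * x) * (P t * Q t))) + ∫ t in E, x ^ 2 * Q t ^ 2 := by
      have k1 : Integrable (fun t => P t ^ 2 - (2 * x) * (P t * Q t)) (volume.restrict E) :=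
        Integrable.sub i1 (i2.const_mul (2 * x))
      have k2 : Integrable (fun t => x ^ 2 * Q t ^ 2) (volume.restrict E) := i3.const_mul (x ^ 2)
      rw [← integral_add k1 k2]
      refine integral_congr_ae (Filter.Eventually.of_forall fun t => ?_)
      simp only
      ring
    rw [integral_sub i1 (i2.const_mul _), integral_const_mul, integral_const_mul] at h2
    rw [h2] at h1
    linarith
  have h3 := discrim_le_zero key
  unfold discrim at h3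
  nlinarith

lemma set_le {E : Set ℝ} {H W : ℝ} (hW : 0 ≤ W) (hE : E ⊆ Icc H (H + W)) {P : ℝ → ℝ}
    (hP : Continuous P) (h0 : ∀ t, 0 ≤ P t) : ∫ t in E, P t ≤ ∫ t in H..(H + W), P t := by
  rw [intervalIntegral.integral_of_le (by linarith), ← integral_Icc_eq_integral_Ioc]
  exact setIntegral_mono_set (intOn subset_rfl hP) (Filter.Eventually.of_forall h0)
    (Filter.Eventually.of_forall hE)

/-- the two cases -/
lemma pair {E : Set ℝ} {H W N₁ N₂ A₁ A₂ : ℝ} (hEm : MeasurableSet E) (hW : 0 ≤ W)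
    (hE : E ⊆ Icc H (H + W)) {P Q : ℝ → ℝ} (hP : Continuous P) (hQ : Continuous Q)
    (hN : 1 ≤ N₂) (hNN : N₂ ≤ N₁) (hA₁ : 0 ≤ A₁) (hA₂ : 0 ≤ A₂) (hsup : ∀ t, Q t ^ 2 ≤ N₂)
    (hmP : ∫ t in H..(H + W), P t ^ 2 ≤ A₁ * (W + N₁))
    (hmQ : ∫ t in H..(H + W), Q t ^ 4 ≤ A₂ * (W + N₂ ^ 2)) :
    (∫ t in E, P t * Q t) ^ 4 ≤ (2 * A₁ * (N₁ * N₂ * volume.real E)) ^ 2 ∨
    (∫ t in E, P t * Q t) ^ 4 ≤
      4 * A₁ ^ 2 * W ^ 2 * (A₂ * (volume.real E * (W + N₁ * N₂))) := by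
  have hm0 : 0 ≤ volume.real E := measureReal_nonneg
  have hvol : volume E ≠ ⊤ := ne_top_of_le_ne_top (by simp) (measure_mono hE)
  have hcs := cs hE hP hQ
  have hp0 : 0 ≤ ∫ t in E, P t ^ 2 := integral_nonneg fun t => sq_nonneg _
  have hq0 : 0 ≤ ∫ t in E, Q t ^ 2 := integral_nonneg fun t => sq_nonneg _
  have hp1 : ∫ t in E, P t ^ 2 ≤ A₁ * (W + N₁) :=
    (set_le hW hE (P := fun t => P t ^ 2) (by fun_prop) fun t => sq_nonneg _).trans hmP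
  have h4 : (∫ t in E, P t * Q t) ^ 4 = ((∫ t in E, P t * Q t) ^ 2) ^ 2 := by ring
  rcases lt_or_ge W N₁ with hWN | hWN
  · left
    have hq1 : ∫ t in E, Q t ^ 2 ≤ volume.real E * N₂ := by
      have h1 : ∫ t in E, Q t ^ 2 ≤ ∫ _t in E, N₂ :=
        setIntegral_mono_on (intOn hE (by fun_prop)) (integrableOn_const hvol) hEm
          fun t _ => hsup t
      rwa [setIntegral_const, smul_eq_mul] at h1
    have h2 : (∫ t in E, P t * Q t) ^ 2 ≤ 2 * A₁ * (N₁ * N₂ * volume.real E) := by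
      calc (∫ t in E, P t * Q t) ^ 2 ≤ (∫ t in E, P t ^ 2) * ∫ t in E, Q t ^ 2 := hcs
        _ ≤ (A₁ * (W + N₁)) * (volume.real E * N₂) :=
            mul_le_mul hp1 hq1 hq0 (hp0.trans hp1)
        _ ≤ (A₁ * (N₁ + N₁)) * (volume.real E * N₂) := by gcongr
        _ = 2 * A₁ * (N₁ * N₂ * volume.real E) := by ring
    rw [h4]
    exact pow_le_pow_left₀ (sq_nonneg _) h2 2
  · right
    have hq2 : (∫ t in E, Q t ^ 2) ^ 2 ≤ volume.real E * (A₂ * (W + N₂ ^ 2)) := by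
      have h1 := cs hE (P := fun _ => (1 : ℝ)) (Q := fun t => Q t ^ 2) continuous_const
        (by fun_prop)
      simp only [one_mul, one_pow, ← pow_mul] at h1
      rw [setIntegral_const, smul_eq_mul, mul_one] at h1
      refine h1.trans (mul_le_mul_of_nonneg_left ?_ hm0)
      refine (set_le hW hE (P := fun t => Q t ^ 4) (by fun_prop) fun t => by positivity).trans hmQ
    have h2 : ((∫ t in E, P t * Q t) ^ 2) ^ 2 ≤
        (∫ t in E, P t ^ 2) ^ 2 * (∫ t in E, Q t ^ 2) ^ 2 := by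
      rw [← mul_pow]
      exact pow_le_pow_left₀ (sq_nonneg _) hcs 2
    rw [h4]
    refine h2.trans ?_
    have h5 : (∫ t in E, P t ^ 2) ^ 2 ≤ 4 * A₁ ^ 2 * W ^ 2 := by
      calc (∫ t in E, P t ^ 2) ^ 2 ≤ (A₁ * (W + W)) ^ 2 := by
            refine pow_le_pow_left₀ hp0 (hp1.trans ?_) 2
            gcongr
        _ = 4 * A₁ ^ 2 * W ^ 2 := by ring
    calc (∫ t in E, P t ^ 2) ^ 2 * (∫ t in E, Q t ^ 2) ^ 2
        ≤ (4 * A₁ ^ 2 * W ^ 2) * (volume.real E * (A₂ * (W + N₂ ^ 2))) :=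
          mul_le_mul h5 hq2 (sq_nonneg _) (by positivity)
      _ ≤ (4 * A₁ ^ 2 * W ^ 2) * (volume.real E * (A₂ * (W + N₁ * N₂))) := by
          have : N₂ ^ 2 ≤ N₁ * N₂ := by nlinarith
          gcongr
      _ = 4 * A₁ ^ 2 * W ^ 2 * (A₂ * (volume.real E * (W + N₁ * N₂))) := by ring

/-- the sup bound -/
lemma sup_bound {ι : Type} [Fintype ι] (f : ι → Fac) (j : ι → ℕ) (t : ℝ) :
    ‖Pj f j (1 / 2 + t * I)‖ ^ 2 ≤ SZ j := by
  classical
  have h1 : ‖Pj f j (1 / 2 + t * I)‖ ≤ Real.sqrt (SZ j) := by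
    rw [Pool.Agent.H92.DL.Pj_eq, sqrt_SZ]
    refine (norm_sum_le _ _).trans ?_
    refine le_trans (Finset.sum_le_sum fun x _ => ?_) (Pool.Agent.H92.DL.coef_sum f j)
    rw [norm_mul, Complex.norm_exp_ofReal_mul_I, mul_one]
  calc ‖Pj f j (1 / 2 + t * I)‖ ^ 2 ≤ Real.sqrt (SZ j) ^ 2 :=
        pow_le_pow_left₀ (norm_nonneg _) h1 2
    _ = SZ j := Real.sq_sqrt (Nat.cast_nonneg _)

/-- the numerical step -/
lemma numeric {X W T m S C ε D d μ A₁ A₂ : ℝ} (_hX : 0 ≤ X) (hW : 0 < W) (hT : 1 ≤ T) (hm : 0 ≤ m)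
    (hS : 0 ≤ S) (hC : 0 < C) (hε : 0 < ε) (hμ : 0 < μ) (hDD : D < d + μ * ε / 4)
    (hA₁ : 0 ≤ A₁) (hA₂ : 0 ≤ A₂) (hA₁' : A₁ ≤ C * T ^ (ε / 8)) (hA₂' : A₂ ≤ C * T ^ (ε / 8))
    (hST : S ≤ T ^ (D / μ)) (hmm : m ≤ T ^ (-ε) * min W (W ^ 2 * T ^ (-(d / μ))))
    (hTb : 4 * C ^ 2 + 8 * C ^ 3 ≤ T ^ (ε / 4))
    (h : X ^ 4 ≤ (2 * A₁ * (S * m)) ^ 2 ∨ X ^ 4 ≤ 4 * A₁ ^ 2 * W ^ 2 * (A₂ * (m * (W + S)))) :
    X ≤ W * T ^ (-(ε / 32)) := by
  have hT0 : 0 < T := by linarith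
  have hTe : 0 < T ^ (-ε) := Real.rpow_pos_of_pos hT0 _
  have hmW : m ≤ T ^ (-ε) * W := hmm.trans (mul_le_mul_of_nonneg_left (min_le_left _ _) hTe.le)
  have hmW2 : m ≤ T ^ (-ε) * (W ^ 2 * T ^ (-(d / μ))) :=
    hmm.trans (mul_le_mul_of_nonneg_left (min_le_right _ _) hTe.le)
  have hSm : S * m ≤ W ^ 2 * T ^ (-(3 * ε / 4)) := by
    calc S * m ≤ T ^ (D / μ) * (T ^ (-ε) * (W ^ 2 * T ^ (-(d / μ)))) :=
          mul_le_mul hST hmW2 hm (Real.rpow_nonneg hT0.le _)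
      _ = W ^ 2 * (T ^ (D / μ) * T ^ (-ε) * T ^ (-(d / μ))) := by ring
      _ = W ^ 2 * T ^ (D / μ + -ε + -(d / μ)) := by
          rw [Real.rpow_add hT0, Real.rpow_add hT0]
      _ ≤ W ^ 2 * T ^ (-(3 * ε / 4)) := by
          refine mul_le_mul_of_nonneg_left (Real.rpow_le_rpow_of_exponent_le hT ?_) (by positivity)
          have : D / μ < d / μ + ε / 4 := by
            rw [div_lt_iff₀ hμ]
            have : (d / μ + ε / 4) * μ = d + μ * ε / 4 := by field_simp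
            linarith
          linarith
  have hmWS : m * (W + S) ≤ 2 * (W ^ 2 * T ^ (-(3 * ε / 4))) := by
    have h1 : m * W ≤ W ^ 2 * T ^ (-(3 * ε / 4)) := by
      calc m * W ≤ T ^ (-ε) * W * W := mul_le_mul_of_nonneg_right hmW hW.le
        _ = W ^ 2 * T ^ (-ε) := by ring
        _ ≤ W ^ 2 * T ^ (-(3 * ε / 4)) := by
            refine mul_le_mul_of_nonneg_left (Real.rpow_le_rpow_of_exponent_le hT ?_)
              (by positivity)
            linarith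
    calc m * (W + S) = m * W + S * m := by ring
      _ ≤ _ := by linarith
  have hT4 : ∀ x : ℝ, (T ^ x) ^ 2 = T ^ (2 * x) := by
    intro x
    rw [← Real.rpow_natCast (T ^ x) 2, ← Real.rpow_mul hT0.le]
    congr 1
    push_cast
    ring
  have hT3 : ∀ x : ℝ, (T ^ x) ^ 3 = T ^ (3 * x) := by
    intro x
    rw [← Real.rpow_natCast (T ^ x) 3, ← Real.rpow_mul hT0.le]
    congr 1
    push_cast
    ring
  have hgoal : (W * T ^ (-(ε / 32))) ^ 4 = W ^ 4 * T ^ (-(ε / 8)) := by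
    rw [mul_pow, ← Real.rpow_natCast (T ^ (-(ε / 32))) 4, ← Real.rpow_mul hT0.le]
    congr 2
    push_cast
    ring
  have hfin : X ^ 4 ≤ (W * T ^ (-(ε / 32))) ^ 4 := by
    rw [hgoal]
    have hW4 : 0 < W ^ 4 := by positivity
    have hC3 : 0 < C ^ 3 := by positivity
    have hC2 : 0 < C ^ 2 := by positivity
    rcases h with h | h
    · refine h.trans ?_
      calc (2 * A₁ * (S * m)) ^ 2
          ≤ (2 * (C * T ^ (ε / 8)) * (W ^ 2 * T ^ (-(3 * ε / 4)))) ^ 2 := by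
            refine pow_le_pow_left₀ (by positivity) ?_ 2
            gcongr
        _ = 4 * C ^ 2 * W ^ 4 * (T ^ (ε / 8) * T ^ (-(3 * ε / 4))) ^ 2 := by ring
        _ = 4 * C ^ 2 * W ^ 4 * T ^ (-(5 * ε / 4)) := by
            rw [← Real.rpow_add hT0, hT4]
            congr 2
            ring
        _ ≤ T ^ (ε / 4) * W ^ 4 * T ^ (-(5 * ε / 4)) := by
            have := Real.rpow_nonneg hT0.le (-(5 * ε / 4))
            gcongr
            linarith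
        _ = W ^ 4 * (T ^ (ε / 4) * T ^ (-(5 * ε / 4))) := by ring
        _ = W ^ 4 * T ^ (-ε) := by
            rw [← Real.rpow_add hT0]
            congr 2
            ring
        _ ≤ W ^ 4 * T ^ (-(ε / 8)) := by
            refine mul_le_mul_of_nonneg_left (Real.rpow_le_rpow_of_exponent_le hT ?_) hW4.le
            linarith
    · refine h.trans ?_
      calc 4 * A₁ ^ 2 * W ^ 2 * (A₂ * (m * (W + S)))
          ≤ 4 * (C * T ^ (ε / 8)) ^ 2 * W ^ 2 *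
              ((C * T ^ (ε / 8)) * (2 * (W ^ 2 * T ^ (-(3 * ε / 4))))) := by
            have : 0 ≤ m * (W + S) := by positivity
            gcongr
        _ = 8 * C ^ 3 * W ^ 4 * ((T ^ (ε / 8)) ^ 3 * T ^ (-(3 * ε / 4))) := by ring
        _ = 8 * C ^ 3 * W ^ 4 * T ^ (-(3 * ε / 8)) := by
            rw [hT3, ← Real.rpow_add hT0]
            congr 2
            ring
        _ ≤ T ^ (ε / 4) * W ^ 4 * T ^ (-(3 * ε / 8)) := by
            have := Real.rpow_nonneg hT0.le (-(3 * ε / 8))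
            gcongr
            linarith
        _ = W ^ 4 * (T ^ (ε / 4) * T ^ (-(3 * ε / 8))) := by ring
        _ = W ^ 4 * T ^ (-(ε / 8)) := by
            rw [← Real.rpow_add hT0]
            congr 2
            ring
  exact le_of_pow_le_pow_left₀ (by norm_num) (by positivity) hfin

theorem bd1 (h : T_MP) : T_BD1 := by
  intro ι _ f a b μ d ε hμ ha hb hd hε hμr hab
  classical
  obtain ⟨D₁, hD₁⟩ : ∃ D₁ : ℝ, D₁ = d + μ * ε / 4 := ⟨_, rfl⟩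
  have hD₁0 : 0 < D₁ := by rw [hD₁]; positivity
  have hε₁ : 0 < ε * μ / (8 * D₁) := by positivity
  -- the two classes
  obtain ⟨P, hPdef⟩ : ∃ P : ι → Prop, P = fun l => (f l).r = a := ⟨_, rfl⟩
  have hPa : ∀ l : {l // P l}, (f l).r = a := by
    rintro ⟨l, hl⟩
    rw [hPdef] at hl
    exact hl
  have hPb : ∀ l : {l // ¬P l}, (f l).r = b := by
    rintro ⟨l, hl⟩
    rw [hPdef] at hl
    exact (hab l).resolve_left hl
  obtain ⟨C₁, hC₁, m₁⟩ := h {l // P l} (fun l => f l) a _ 1 hPa ha hε₁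
  obtain ⟨C₂, hC₂, m₂⟩ := h {l // P l} (fun l => f l) a _ 2 hPa ha hε₁
  obtain ⟨C₃, hC₃, m₃⟩ := h {l // ¬P l} (fun l => f l) b _ 1 hPb hb hε₁
  obtain ⟨C₄, hC₄, m₄⟩ := h {l // ¬P l} (fun l => f l) b _ 2 hPb hb hε₁
  obtain ⟨C, hC⟩ : ∃ C : ℝ, C = C₁ + C₂ + C₃ + C₄ := ⟨_, rfl⟩
  have hC0 : 0 < C := by rw [hC]; positivity
  refine ⟨D₁, ε / 32, by rw [hD₁]; linarith [show 0 < μ * ε / 4 by positivity], by positivity,
    fun D hdD hDD => ?_⟩
  obtain ⟨T₂, hT₂⟩ : ∃ T₂ : ℝ, ∀ T : ℝ, T₂ ≤ T → 4 * C ^ 2 + 8 * C ^ 3 ≤ T ^ (ε / 4) := by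
    have h1 := (tendsto_rpow_atTop (show 0 < ε / 4 by positivity)).eventually_ge_atTop
      (4 * C ^ 2 + 8 * C ^ 3)
    rw [Filter.eventually_atTop] at h1
    exact h1
  refine ⟨max T₂ 3, fun T hT j hj H W hlW _ E hE hEs hvE => ?_⟩
  have hTT₂ : T₂ ≤ T := (le_max_left _ _).trans hT
  have hT3 : 3 ≤ T := (le_max_right _ _).trans hT
  have hT0 : 0 < T := by linarith
  have hT1 : 1 ≤ T := by linarith
  have hR1 : 1 ≤ Real.log T := by
    rw [Real.le_log_iff_exp_le hT0]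
    have := Real.exp_one_lt_d9
    linarith
  have hW1 : 1 ≤ W := hR1.trans hlW
  have hD0 : 0 < D := hd.trans hdD
  have hsize := SZ_le_of_mem hμ hT1 hμr hj
  obtain ⟨j₁, hj₁⟩ : ∃ j₁ : {l // P l} → ℕ, j₁ = fun l : {l // P l} => j l := ⟨_, rfl⟩
  obtain ⟨j₂, hj₂⟩ : ∃ j₂ : {l // ¬P l} → ℕ, j₂ = fun l : {l // ¬P l} => j l := ⟨_, rfl⟩
  have hS : (SZ j : ℝ) = (SZ j₁ : ℝ) * (SZ j₂ : ℝ) := by
    rw [SZ_split P j, hj₁, hj₂]
    push_cast
    rfl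
  have hN₁ : (1 : ℝ) ≤ SZ j₁ := by exact_mod_cast SZ_pos j₁
  have hN₂ : (1 : ℝ) ≤ SZ j₂ := by exact_mod_cast SZ_pos j₂
  -- sizes of the powers
  have hpow : ∀ N : ℝ, 1 ≤ N → N ≤ SZ j → N ^ (ε * μ / (8 * D₁)) ≤ T ^ (ε / 8) := by
    intro N hN hNS
    calc N ^ (ε * μ / (8 * D₁)) ≤ (T ^ (D / μ)) ^ (ε * μ / (8 * D₁)) :=
          Real.rpow_le_rpow (by linarith) (hNS.trans hsize) hε₁.le
      _ = T ^ (D / μ * (ε * μ / (8 * D₁))) := by rw [← Real.rpow_mul hT0.le]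
      _ ≤ T ^ (ε / 8) := by
          refine Real.rpow_le_rpow_of_exponent_le hT1 ?_
          have : D / μ * (ε * μ / (8 * D₁)) = (D / D₁) * (ε / 8) := by
            field_simp
          rw [this]
          have h2 : D / D₁ ≤ 1 := by rw [div_le_one hD₁0]; exact hDD.le
          nlinarith
  have hNS₁ : (SZ j₁ : ℝ) ≤ SZ j := by rw [hS]; nlinarith
  have hNS₂ : (SZ j₂ : ℝ) ≤ SZ j := by rw [hS]; nlinarith
  have hb1 := hpow _ hN₁ hNS₁
  have hb2 := hpow _ hN₂ hNS₂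
  have hTe8 : 0 < T ^ (ε / 8) := Real.rpow_pos_of_pos hT0 _
  -- the functions
  obtain ⟨p, hp⟩ : ∃ p : ℝ → ℝ, p = fun t : ℝ => ‖Pj (fun l : {l // P l} => f l) j₁
    (1 / 2 + t * I)‖ := ⟨_, rfl⟩
  obtain ⟨q, hq⟩ : ∃ q : ℝ → ℝ, q = fun t : ℝ => ‖Pj (fun l : {l // ¬P l} => f l) j₂
    (1 / 2 + t * I)‖ := ⟨_, rfl⟩
  have hpc : Continuous p := by
    rw [hp]
    unfold Pj
    exact (continuous_finsetProd _ fun (l : {l // P l}) _ => B_continuous (f l) (j₁ l)).norm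
  have hqc : Continuous q := by
    rw [hq]
    unfold Pj
    exact (continuous_finsetProd _ fun (l : {l // ¬P l}) _ => B_continuous (f l) (j₂ l)).norm
  have hpq : ∀ t : ℝ, ‖Pj f j (1 / 2 + t * I)‖ = p t * q t := by
    intro t
    rw [Pj_split f P j, norm_mul, hp, hq, hj₁, hj₂]
  simp_rw [hpq]
  have hX : 0 ≤ ∫ t in E, p t * q t := by
    refine integral_nonneg fun t => ?_
    rw [hp, hq]
    positivity
  have hm0 : 0 ≤ volume.real E := measureReal_nonneg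
  have hS0 : (0 : ℝ) ≤ SZ j := Nat.cast_nonneg _
  have e₁ := m₁ j₁ H W hW1
  have e₂ := m₂ j₁ H W hW1
  have e₃ := m₃ j₂ H W hW1
  have e₄ := m₄ j₂ H W hW1
  have hCC : C₁ ≤ C ∧ C₂ ≤ C ∧ C₃ ≤ C ∧ C₄ ≤ C := by
    rw [hC]
    refine ⟨?_, ?_, ?_, ?_⟩ <;> linarith
  have hp2 : ∀ t, p t ^ 2 ≤ SZ j₁ := fun t => by rw [hp]; exact sup_bound _ _ _
  have hq2 : ∀ t, q t ^ 2 ≤ SZ j₂ := fun t => by rw [hq]; exact sup_bound _ _ _
  have hrp1 : 0 ≤ (SZ j₁ : ℝ) ^ (ε * μ / (8 * D₁)) := Real.rpow_nonneg (by linarith) _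
  have hrp2 : 0 ≤ (SZ j₂ : ℝ) ^ (ε * μ / (8 * D₁)) := Real.rpow_nonneg (by linarith) _
  have bound : ∀ c x : ℝ, 0 < c → c ≤ C → 0 ≤ x → x ≤ T ^ (ε / 8) → c * x ≤ C * T ^ (ε / 8) := by
    intro c x hc hcC hx hxT
    exact mul_le_mul hcC hxT hx hC0.le
  have hW0 : 0 ≤ W := by linarith
  rcases le_total (SZ j₂ : ℝ) (SZ j₁ : ℝ) with hle | hle
  · refine numeric hX (by linarith) hT1 hm0 hS0 hC0 hε hμ (by rw [← hD₁]; exact hDD)
      (A₁ := C₁ * (SZ j₁ : ℝ) ^ (ε * μ / (8 * D₁))) (A₂ := C₄ * (SZ j₂ : ℝ) ^ (ε * μ / (8 * D₁)))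
      (by positivity) (by positivity) (bound _ _ hC₁ hCC.1 hrp1 hb1)
      (bound _ _ hC₄ hCC.2.2.2 hrp2 hb2) hsize hvE (hT₂ T hTT₂) ?_
    have h1 := pair hE hW0 hEs hpc hqc hN₂ hle (A₁ := C₁ * (SZ j₁ : ℝ) ^ (ε * μ / (8 * D₁)))
      (A₂ := C₄ * (SZ j₂ : ℝ) ^ (ε * μ / (8 * D₁))) (by positivity) (by positivity) hq2
      (by rw [hp]; simpa using e₁) (by rw [hq]; simpa using e₄)
    rw [hS]
    exact h1
  · refine numeric hX (by linarith) hT1 hm0 hS0 hC0 hε hμ (by rw [← hD₁]; exact hDD)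
      (A₁ := C₃ * (SZ j₂ : ℝ) ^ (ε * μ / (8 * D₁))) (A₂ := C₂ * (SZ j₁ : ℝ) ^ (ε * μ / (8 * D₁)))
      (by positivity) (by positivity) (bound _ _ hC₃ hCC.2.2.1 hrp2 hb2)
      (bound _ _ hC₂ hCC.2.1 hrp1 hb1) hsize hvE (hT₂ T hTT₂) ?_
    have h1 := pair hE hW0 hEs hqc hpc hN₁ hle (A₁ := C₃ * (SZ j₂ : ℝ) ^ (ε * μ / (8 * D₁)))
      (A₂ := C₂ * (SZ j₁ : ℝ) ^ (ε * μ / (8 * D₁))) (by positivity) (by positivity) hp2
      (by rw [hq]; simpa using e₃) (by rw [hp]; simpa using e₂)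
    rw [hS]
    have h2 : ∫ t in E, p t * q t = ∫ t in E, q t * p t := by
      congr 1
      ext t
      ring
    rw [h2, mul_comm (SZ j₁ : ℝ) (SZ j₂ : ℝ)]
    exact h1

end Pool.Agent.H52.DP.BD1
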