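import Pool.Agent.H25.DP.Targets2
import Pool.Agent.H19.DL.YA
import Pool.Agent.H89.DL.PH
import Pool.Agent.H89.DL.YB
import Pool.Agent.H92.DL.YN

/-!
# Two dilations: the phase of the quotient with explicit constant
-/

set_option autoImplicit false

open Complex MeasureTheory Set Filter Topology

namespace Pool.Agent.H52.DP.PHB

open Pool.Agent.H98.Cubic Pool.Agent.H25.DL Pool.Agent.H25.DP Pool.Agent.H19.DL
open Pool.Agent.H89.DL (ph norm_ph ph_mul ph_inv wl_half)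

/-- functions with phase asymptotics, the linear term recorded -/
def Pb (D B : ℝ) (u : ℝ → ℂ) : Prop :=
  ∃ (κ : ℂ) (η C t₁ : ℝ), ‖κ‖ = 1 ∧ 0 ≤ C ∧ 1 ≤ t₁ ∧ ∀ t : ℝ, t₁ ≤ t →
    ‖u t - κ * ph D B η t‖ ≤ C / t

lemma Pb.mul {D D' B B' : ℝ} {u v : ℝ → ℂ} (hu : Pb D B u) (hv : Pb D' B' v) :
    Pb (D + D') (B + B') (fun t => u t * v t) := by
  obtain ⟨κ, η, C, t₁, hκ, hC, ht₁, h⟩ := hu
  obtain ⟨κ', η', C', t₁', hκ', hC', ht₁', h'⟩ := hv
  refine ⟨κ * κ', η + η', C * (1 + C') + C', max t₁ t₁', by rw [norm_mul, hκ, hκ', mul_one],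
    by positivity, ht₁.trans (le_max_left _ _), fun t ht => ?_⟩
  have h1 := h t ((le_max_left _ _).trans ht)
  have h2 := h' t ((le_max_right _ _).trans ht)
  have ht1 : 1 ≤ t := ht₁.trans ((le_max_left _ _).trans ht)
  have ht0 : 0 < t := by linarith
  have e : u t * v t - κ * κ' * ph (D + D') (B + B') (η + η') t =
      (u t - κ * ph D B η t) * v t + κ * ph D B η t * (v t - κ' * ph D' B' η' t) := by
    rw [← ph_mul]
    ring
  have hv1 : ‖v t‖ ≤ 1 + C' := by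
    have h3 : ‖v t‖ ≤ ‖v t - κ' * ph D' B' η' t‖ + ‖κ' * ph D' B' η' t‖ := by
      have := norm_add_le (v t - κ' * ph D' B' η' t) (κ' * ph D' B' η' t)
      rwa [sub_add_cancel] at this
    rw [norm_mul, hκ', norm_ph, mul_one] at h3
    have h4 : C' / t ≤ C' := div_le_self hC' ht1
    linarith
  rw [e]
  refine (norm_add_le _ _).trans ?_
  rw [norm_mul, norm_mul, norm_mul, hκ, norm_ph, mul_one, one_mul, add_div, mul_comm C, mul_div_assoc]
  refine add_le_add ?_ h2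
  rw [mul_comm]
  exact mul_le_mul hv1 h1 (norm_nonneg _) (by positivity)

lemma Pb.inv {D B : ℝ} {u : ℝ → ℂ} (hu : Pb D B u) : Pb (-D) (-B) (fun t => (u t)⁻¹) := by
  obtain ⟨κ, η, C, t₁, hκ, hC, ht₁, h⟩ := hu
  have hκ0 : κ ≠ 0 := by
    intro h0
    rw [h0, norm_zero] at hκ
    exact zero_ne_one hκ
  refine ⟨κ⁻¹, -η, 2 * C, t₁ + 2 * C, by rw [norm_inv, hκ, inv_one], by positivity,
    by linarith, fun t ht => ?_⟩
  have h1 := h t (by linarith)
  have ht1 : 1 ≤ t := by linarith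
  have ht0 : 0 < t := by linarith
  obtain ⟨E, hE⟩ : ∃ E : ℂ, E = κ * ph D B η t := ⟨_, rfl⟩
  have hEn : ‖E‖ = 1 := by rw [hE, norm_mul, hκ, norm_ph, mul_one]
  rw [← hE] at h1
  have hE0 : E ≠ 0 := by
    intro h0
    rw [h0, norm_zero] at hEn
    exact zero_ne_one hEn
  have hCt : C / t ≤ 1 / 2 := by
    rw [div_le_iff₀ ht0]
    linarith
  have hu1 : 1 / 2 ≤ ‖u t‖ := by
    have h3 : ‖E‖ ≤ ‖u t‖ + ‖u t - E‖ := by
      have := norm_sub_le (u t) (u t - E)
      rwa [sub_sub_cancel] at this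
    linarith
  have hu0 : u t ≠ 0 := by
    intro h0
    rw [h0, norm_zero] at hu1
    linarith
  have e : (u t)⁻¹ - κ⁻¹ * ph (-D) (-B) (-η) t = -(u t - E) * ((u t)⁻¹ * E⁻¹) := by
    rw [← ph_inv, ← mul_inv, ← hE]
    field_simp
    ring
  rw [e, norm_mul, norm_neg, norm_mul, norm_inv, norm_inv, hEn, inv_one, mul_one, mul_div_assoc,
    mul_comm 2]
  refine mul_le_mul h1 ?_ (by positivity) (by positivity)
  rw [inv_le_comm₀ (by linarith) (by norm_num)]
  linarith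

lemma Pb.const {κ : ℂ} (hκ : ‖κ‖ = 1) : Pb 0 0 (fun _ => κ) := by
  refine ⟨κ, 0, 0, 1, hκ, le_rfl, le_rfl, fun t _ => ?_⟩
  have : ph 0 0 0 t = 1 := by rw [ph]; simp
  rw [this, mul_one, sub_self, norm_zero, zero_div]

lemma Pb.prod {ι : Type} (s : Finset ι) {D B : ι → ℝ} {u : ι → ℝ → ℂ}
    (h : ∀ i, Pb (D i) (B i) (u i)) :
    Pb (∑ i ∈ s, D i) (∑ i ∈ s, B i) (fun t => ∏ i ∈ s, u i t) := by
  classical
  induction s using Finset.induction_on with
  | empty => simpa using Pb.const (κ := 1) (by simp)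
  | insert a s ha ih =>
    have h1 : (fun t => ∏ i ∈ insert a s, u i t) = fun t => u a t * ∏ i ∈ s, u i t := by
      funext t
      rw [Finset.prod_insert ha]
    rw [h1, Finset.sum_insert ha, Finset.sum_insert ha]
    exact (h a).mul ih

lemma Pb.exp (r τ c : ℝ) : Pb 0 (r * c) (fun t => cexp (((r * t + τ : ℝ) : ℂ) * I * c)) := by
  refine ⟨cexp ((τ * c : ℝ) * I), 0, 0, 1, Complex.norm_exp_ofReal_mul_I _, le_rfl, le_rfl,
    fun t _ => ?_⟩
  rw [ph, ← Complex.exp_add]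
  have : ((r * t + τ : ℝ) : ℂ) * I * c = ((τ * c : ℝ) : ℂ) * I +
      ((0 * t * Real.log t + r * c * t + 0 * Real.log t : ℝ) : ℂ) * I := by
    push_cast
    ring
  simp only
  rw [this, sub_self, norm_zero, zero_div]

/-- the Gamma factor with explicit constant -/
lemma ya' (κ r τ : ℝ) (hr : 0 < r) :
    Pb r (r * (Real.log (r / (2 * Real.pi)) - 1))
      (fun t => Gammaℂ (1 / 2 + ((r * t + τ : ℝ) : ℂ) * I) *
        Complex.cos (Real.pi * ((1 / 2 + ((r * t + τ : ℝ) : ℂ) * I) - κ) / 2)) := by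
  obtain ⟨C, hC, h⟩ := G_bound
  have hB : r * (Real.log (r / (2 * Real.pi)) - 1) =
      r * Real.log r - r - r * Real.log (2 * Real.pi) := by
    rw [Real.log_div hr.ne' (by positivity)]
    ring
  rw [hB]
  refine ⟨ei (-(Real.pi * (1 / 2 - κ) / 2)) * ei (τ * Real.log (r / (2 * Real.pi))),
    τ, 2 * C / r + τ ^ 2 / r,
    max 1 ((2 * |τ| + 2) / r), ?_, by positivity, le_max_left _ _, fun t ht => ?_⟩
  · rw [norm_mul, norm_ei, norm_ei, one_mul]
  have ht1 : 1 ≤ t := (le_max_left _ _).trans ht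
  have ht0 : 0 < t := by linarith
  have hrt : 2 * |τ| + 2 ≤ r * t := by
    have := (le_max_right _ _).trans ht
    rw [div_le_iff₀ hr] at this
    linarith
  have hτ := neg_abs_le τ
  have hτ0 := abs_nonneg τ
  have hy : r * t / 2 ≤ r * t + τ := by linarith
  have hy1 : 1 ≤ r * t + τ := by linarith
  have hrt0 : 0 < r * t := by positivity
  have e1 := h κ (r * t + τ) hy1
  have e2 := phase_bound r τ t hr ht0 (by linarith)
  have e3 := norm_ei_sub ((r * t + τ) * Real.log ((r * t + τ) / (2 * Real.pi)) - (r * t + τ))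
    ((r * t * Real.log t + (r * Real.log r - r - r * Real.log (2 * Real.pi)) * t +
        τ * Real.log t) + τ * Real.log (r / (2 * Real.pi)))
  have e4 : C / (r * t + τ) ≤ 2 * C / r / t := by
    calc C / (r * t + τ) ≤ C / (r * t / 2) := by gcongr
      _ = _ := by field_simp
  have e5 : ei ((r * t * Real.log t + (r * Real.log r - r - r * Real.log (2 * Real.pi)) * t +
        τ * Real.log t) + τ * Real.log (r / (2 * Real.pi))) =
      ei (τ * Real.log (r / (2 * Real.pi))) *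
        ph r (r * Real.log r - r - r * Real.log (2 * Real.pi)) τ t := by
    rw [ei_add, mul_comm, ph]; rfl
  simp only
  set G := Gammaℂ (1 / 2 + ((r * t + τ : ℝ) : ℂ) * I) *
        Complex.cos (Real.pi * ((1 / 2 + ((r * t + τ : ℝ) : ℂ) * I) - κ) / 2) with hG
  set P1 := ei ((r * t + τ) * Real.log ((r * t + τ) / (2 * Real.pi)) - (r * t + τ)) with hP1
  set P2 := ei ((r * t * Real.log t + (r * Real.log r - r - r * Real.log (2 * Real.pi)) * t +
        τ * Real.log t) + τ * Real.log (r / (2 * Real.pi))) with hP2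
  rw [mul_assoc, ← e5]
  calc ‖G - ei (-(Real.pi * (1 / 2 - κ) / 2)) * P2‖ =
      ‖(G - ei (-(Real.pi * (1 / 2 - κ) / 2)) * P1) +
        ei (-(Real.pi * (1 / 2 - κ) / 2)) * (P1 - P2)‖ := by congr 1; ring
    _ ≤ 2 * C / r / t + τ ^ 2 / r / t := by
        refine (norm_add_le _ _).trans (add_le_add (e1.trans e4) ?_)
        rw [norm_mul, norm_ei, one_mul]
        exact e3.trans e2
    _ = _ := by ring

lemma fac_pb (a : DLF) :
    Pb (a.r * a.L.n) (bC a) (fun t => a.L.y (wl a.r a.τ (1 / 2 + t * I))) := by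
  have hk : ∀ j : Fin a.L.n, Pb a.r (a.r * (Real.log (a.r / (2 * Real.pi)) - 1))
      (fun t => Gammaℂ (1 / 2 + ((a.r * t + a.τ : ℝ) : ℂ) * I) *
      Complex.cos (Real.pi * ((1 / 2 + ((a.r * t + a.τ : ℝ) : ℂ) * I) - a.L.κ j) / 2)) :=
    fun j => ya' (a.L.κ j) a.r a.τ a.r_pos
  have hprod := Pb.prod Finset.univ hk
  have hexp := Pb.exp a.r a.τ (Real.log a.L.A)
  have hall := ((Pb.const a.L.norm_ε).mul hexp).mul hprod
  have e : (0 : ℝ) + 0 + ∑ _j : Fin a.L.n, a.r = a.r * a.L.n := by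
    rw [Finset.sum_const, Finset.card_univ, Fintype.card_fin, nsmul_eq_mul]
    ring
  have e1 : (0 : ℝ) + a.r * Real.log a.L.A +
      ∑ _j : Fin a.L.n, a.r * (Real.log (a.r / (2 * Real.pi)) - 1) = bC a := by
    rw [Finset.sum_const, Finset.card_univ, Fintype.card_fin, nsmul_eq_mul, bC]
    ring
  rw [e, e1] at hall
  have e2 : (fun t : ℝ => a.L.y (wl a.r a.τ (1 / 2 + t * I))) = fun t : ℝ =>
      a.L.ε * cexp (((a.r * t + a.τ : ℝ) : ℂ) * I * (Real.log a.L.A : ℝ)) *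
        ∏ j, (Gammaℂ (1 / 2 + ((a.r * t + a.τ : ℝ) : ℂ) * I) *
      Complex.cos (Real.pi * ((1 / 2 + ((a.r * t + a.τ : ℝ) : ℂ) * I) - a.L.κ j) / 2)) := by
    funext t
    rw [wl_half, LF.y]
    congr 3
    ring
  rw [e2]
  exact hall

lemma phase_mono {Y : ℂ → ℂ} {d t₀ t₁ : ℝ} (h : Phase Y d t₀) (ht : t₀ ≤ t₁) : Phase Y d t₁ := by
  refine ⟨h.one_le.trans ht, fun s hs => h.diff s (ht.trans hs), ?_, fun b => ?_⟩
  · obtain ⟨κ, B, η, C, hκ, hC⟩ := h.main
    exact ⟨κ, B, η, C, hκ, fun t h1 => hC t (ht.trans h1)⟩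
  · obtain ⟨C, hC, hb⟩ := h.growth b
    exact ⟨C, hC, fun σ t h1 h2 h3 => hb σ t h1 h2 (ht.trans h3)⟩

theorem phb : T_PHB := by
  intro F
  have hph : Pb F.d (BC F) (fun t => F.Y (1 / 2 + t * I)) := by
    have ha := Pb.prod Finset.univ (fun i => fac_pb (F.p i))
    have hb := (Pb.prod Finset.univ (fun j => fac_pb (F.q j))).inv
    have hc := ha.mul hb
    rw [← sub_eq_add_neg, ← sub_eq_add_neg] at hc
    have e : (fun t : ℝ => F.Y (1 / 2 + t * I)) = fun t : ℝ =>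
        (∏ i, (F.p i).L.y (wl (F.p i).r (F.p i).τ (1 / 2 + t * I))) *
          (∏ j, (F.q j).L.y (wl (F.q j).r (F.q j).τ (1 / 2 + t * I)))⁻¹ := by
      funext t
      rw [Fam.Y, div_eq_mul_inv]
    rw [e]
    exact hc
  obtain ⟨t₀, ht₀⟩ :=
    Pool.Agent.H89.DL.phase Pool.Agent.H19.DL.ya Pool.Agent.H89.DL.yb Pool.Agent.H92.DL.yn F
  obtain ⟨κ, η, C, t₁, hκ, hC, ht₁, hmain⟩ := hph
  refine ⟨max t₀ t₁, η, C, κ, phase_mono ht₀ (le_max_left _ _), hκ, fun t ht => ?_⟩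
  exact hmain t ((le_max_right _ _).trans ht)

end Pool.Agent.H52.DP.PHB
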