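import Pool.Agent.H25.DP.Targets
import Pool.Agent.H25.DL.BA2
import Pool.Agent.H92.DL.FU

/-!
# Two dilations: the local averages over a small set
-/

set_option autoImplicit false

open Complex MeasureTheory Set Pool.Agent.H25.DL Pool.Agent.H25.DP
open scoped ENNReal

namespace Pool.Agent.H52.DP.BD2

theorem bd2 (h : T_BD1) : T_BD2 := by
  intro ι _ f Y d t₀ a b μ ε hY hμ ha hb hd hε hμr hab
  obtain ⟨D₁, c, hD₁, hc, hmain⟩ := h ι f a b μ d ε hμ ha hb hd hε hμr hab
  refine ⟨D₁, c / 2, hD₁, by positivity, fun β hβ D hdD hDD => ?_⟩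
  obtain ⟨T₁, hT₁⟩ := hmain D hdD hDD
  obtain ⟨ω, B₁, η, CY, hω, hCY⟩ := hY.main
  -- thresholds
  obtain ⟨T₂, hT₂⟩ : ∃ T₂ : ℝ, ∀ T : ℝ, T₂ ≤ T → 6 ≤ T ^ (c / 2) := by
    have h1 := (tendsto_rpow_atTop (show 0 < c / 2 by positivity)).eventually_ge_atTop 6
    rw [Filter.eventually_atTop] at h1
    exact h1
  obtain ⟨T₃, hT₃⟩ : ∃ T₃ : ℝ, ∀ T : ℝ, T₃ ≤ T → max t₀ |CY| ≤ T - Real.log T := by
    have h1 : Filter.Tendsto (fun T : ℝ => T - Real.log T) Filter.atTop Filter.atTop := by
      have h2 : Filter.Tendsto (fun T : ℝ => T / 2) Filter.atTop Filter.atTop :=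
        Filter.tendsto_id.atTop_div_const two_pos
      refine Filter.tendsto_atTop_mono' _ ?_ h2
      filter_upwards [Filter.eventually_ge_atTop 16] with T hT
      have h3 : Real.log T = 2 * Real.log (Real.sqrt T) := by
        rw [Real.log_sqrt (by linarith)]; ring
      have h4 := Real.log_le_sub_one_of_pos (Real.sqrt_pos.2 (show (0 : ℝ) < T by linarith))
      have h5 : Real.sqrt T * Real.sqrt T = T := Real.mul_self_sqrt (by linarith)
      have h6 : 4 ≤ Real.sqrt T := by
        rw [show (4 : ℝ) = Real.sqrt 16 by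
          rw [show (16 : ℝ) = 4 ^ 2 by norm_num, Real.sqrt_sq (by norm_num)]]
        exact Real.sqrt_le_sqrt hT
      nlinarith
    have h2 := h1.eventually_ge_atTop (max t₀ |CY|)
    rw [Filter.eventually_atTop] at h2
    exact h2
  refine ⟨max (max T₁ T₂) (max T₃ 3), fun T hT j hj H W hTH hlW hHW E hE hEs hvE => ?_⟩
  have hTT₁ : T₁ ≤ T := (le_max_left _ _).trans ((le_max_left _ _).trans hT)
  have hTT₂ : T₂ ≤ T := (le_max_right _ _).trans ((le_max_left _ _).trans hT)
  have hTT₃ : T₃ ≤ T := (le_max_left _ _).trans ((le_max_right _ _).trans hT)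
  have hT3 : 3 ≤ T := (le_max_right _ _).trans ((le_max_right _ _).trans hT)
  have hT0 : 0 < T := by linarith
  have hR1 : 1 ≤ Real.log T := by
    rw [Real.le_log_iff_exp_le hT0]
    have := Real.exp_one_lt_d9
    linarith
  have hW1 : 1 ≤ W := hR1.trans hlW
  have hTl := hT₃ T hTT₃
  obtain ⟨M, hM⟩ : ∃ M : ℝ, M = 3 * W * T ^ (-c) := ⟨_, rfl⟩
  have hTc : 0 < T ^ (-c) := Real.rpow_pos_of_pos hT0 _
  have hM0 : 0 ≤ M := by rw [hM]; positivity
  have hPc : Continuous fun t : ℝ => Pj f j (1 / 2 + t * I) := by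
    unfold Pj
    exact continuous_finsetProd _ fun l _ => B_continuous (f l) (j l)
  have hvolE : volume E ≠ ⊤ :=
    ne_top_of_le_ne_top (by simp) (measure_mono hEs)
  -- the bound for every translate
  have hHol : ∀ y : ℝ, |y| ≤ Real.log T →
      ∫⁻ u in E, ‖Pj f j (1 / 2 + (u + y : ℝ) * I)‖ₑ ≤ ENNReal.ofReal M := by
    intro y hy
    rw [abs_le] at hy
    have hcont : Continuous fun u : ℝ => Pj f j (1 / 2 + (u + y : ℝ) * I) :=
      hPc.comp (continuous_id.add (continuous_const (y := y)))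
    have hint : IntegrableOn (fun u : ℝ => Pj f j (1 / 2 + (u + y : ℝ) * I)) E volume :=
      (hcont.continuousOn.integrableOn_compact isCompact_Icc).mono_set hEs
    rw [← ofReal_integral_norm_eq_lintegral_enorm hint]
    refine ENNReal.ofReal_le_ofReal ?_
    have hmp : MeasurePreserving (fun u : ℝ => u + y) volume volume :=
      measurePreserving_add_right volume y
    have hemb : MeasurableEmbedding (fun u : ℝ => u + y) := measurableEmbedding_addRight y
    have himg : ∫ t in (fun u : ℝ => u + y) '' E, ‖Pj f j (1 / 2 + t * I)‖ =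
        ∫ u in E, ‖Pj f j (1 / 2 + (u + y : ℝ) * I)‖ :=
      hmp.setIntegral_image_emb hemb (fun t : ℝ => ‖Pj f j (1 / 2 + t * I)‖) E
    rw [← himg]
    have hvol : volume.real ((fun u : ℝ => u + y) '' E) = volume.real E := by
      unfold Measure.real
      rw [← hmp.measure_preimage_emb hemb, preimage_image_eq _ (add_left_injective y)]
    have hW' : W + 2 * Real.log T ≤ 3 * W := by linarith
    have h1 := hT₁ T hTT₁ j hj (H - Real.log T) (W + 2 * Real.log T) (by linarith)
      (by linarith) ((fun u : ℝ => u + y) '' E) (hemb.measurableSet_image' hE) (by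
        rintro _ ⟨u, hu, rfl⟩
        have := hEs hu
        exact ⟨by simp only; linarith [this.1, hy.1], by simp only; linarith [this.2, hy.2]⟩) (by
        rw [hvol]
        refine hvE.trans ?_
        have hX : 0 ≤ T ^ (-(d / μ)) := Real.rpow_nonneg hT0.le _
        have h2 : min W (W ^ 2 * T ^ (-(d / μ))) ≤
            min (W + 2 * Real.log T) ((W + 2 * Real.log T) ^ 2 * T ^ (-(d / μ))) := by
          refine min_le_min (by linarith) ?_
          gcongr
          linarith
        exact mul_le_mul_of_nonneg_left h2 (Real.rpow_nonneg hT0.le _))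
    refine h1.trans ?_
    rw [hM]
    gcongr
  -- the inverse factor
  have hY2 : ∀ t : ℝ, T - Real.log T ≤ t → ‖Y (1 / 2 + t * I)‖ₑ ≤ 2 := by
    intro t ht
    have h1 : max t₀ |CY| ≤ t := hTl.trans ht
    have h2 := hCY t ((le_max_left _ _).trans h1)
    have ht1 : 1 ≤ t := hY.one_le.trans ((le_max_left _ _).trans h1)
    have h3 : CY / t ≤ 1 := by
      rw [div_le_one (by linarith)]
      exact (le_abs_self _).trans ((le_max_right _ _).trans h1)
    have h4 : ‖Y (1 / 2 + t * I)‖ ≤ 2 := by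
      have h5 : ‖ω * cexp ((d * t * Real.log t + B₁ * t + η * Real.log t : ℝ) * I)‖ = 1 := by
        rw [norm_mul, hω, Complex.norm_exp_ofReal_mul_I, one_mul]
      have h6 := norm_le_norm_add_norm_sub' (Y (1 / 2 + t * I))
        (ω * cexp ((d * t * Real.log t + B₁ * t + η * Real.log t : ℝ) * I))
      rw [h5] at h6
      linarith
    rw [← ofReal_norm]
    calc ENNReal.ofReal ‖Y (1 / 2 + t * I)‖ ≤ ENNReal.ofReal 2 := ENNReal.ofReal_le_ofReal h4
      _ = 2 := by norm_num
  have hgc : Continuous fun y : ℝ => gs β (y * I) := by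
    unfold gs
    fun_prop
  have hR : -Real.log T ≤ Real.log T := by linarith
  have hgi : ∫⁻ y in Ioc (-Real.log T) (Real.log T), ‖gs β (y * I)‖ₑ ≤ 1 := by
    have h1 : IntegrableOn (fun y : ℝ => gs β (y * I)) (Ioc (-Real.log T) (Real.log T)) volume :=
      (hgc.continuousOn.integrableOn_compact isCompact_Icc).mono_set Ioc_subset_Icc_self
    rw [← ofReal_integral_norm_eq_lintegral_enorm h1]
    have h2 := Pool.Agent.H92.DL.gs_int β (Real.log T) hβ (by linarith)
    rw [intervalIntegral.integral_of_le hR] at h2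
    calc _ ≤ ENNReal.ofReal 1 := ENNReal.ofReal_le_ofReal h2
      _ = 1 := ENNReal.ofReal_one
  -- Tonelli
  have hmain : ∫⁻ u in E, ‖KJ f Y β (Real.log T) j u‖ₑ ≤ ENNReal.ofReal (2 * M) := by
    have h1 : ∀ u ∈ E, ‖KJ f Y β (Real.log T) j u‖ₑ ≤
        ∫⁻ y in Ioc (-Real.log T) (Real.log T),
          2 * ‖gs β (y * I)‖ₑ * ‖Pj f j (1 / 2 + (u + y : ℝ) * I)‖ₑ := by
      intro u hu
      unfold KJ
      rw [intervalIntegral.integral_of_le hR]
      refine (enorm_integral_le_lintegral_enorm _).trans ?_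
      refine setLIntegral_mono' measurableSet_Ioc fun y hy => ?_
      rw [enorm_mul, enorm_mul]
      have h2 : T - Real.log T ≤ u + y := by
        have := (hEs hu).1
        have := hy.1
        linarith
      have h3 := hY2 (u + y) h2
      calc ‖Pj f j (1 / 2 + (u + y : ℝ) * I)‖ₑ * ‖Y (1 / 2 + (u + y : ℝ) * I)‖ₑ * ‖gs β (y * I)‖ₑ
          ≤ ‖Pj f j (1 / 2 + (u + y : ℝ) * I)‖ₑ * 2 * ‖gs β (y * I)‖ₑ := by gcongr
        _ = 2 * ‖gs β (y * I)‖ₑ * ‖Pj f j (1 / 2 + (u + y : ℝ) * I)‖ₑ := by ring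
    have hPc2 : Continuous fun q : ℝ × ℝ => Pj f j (1 / 2 + (q.1 + q.2 : ℝ) * I) :=
      hPc.comp (continuous_fst.add continuous_snd)
    calc ∫⁻ u in E, ‖KJ f Y β (Real.log T) j u‖ₑ
        ≤ ∫⁻ u in E, ∫⁻ y in Ioc (-Real.log T) (Real.log T),
            2 * ‖gs β (y * I)‖ₑ * ‖Pj f j (1 / 2 + (u + y : ℝ) * I)‖ₑ :=
          setLIntegral_mono' hE h1
      _ = ∫⁻ y in Ioc (-Real.log T) (Real.log T), ∫⁻ u in E,
            2 * ‖gs β (y * I)‖ₑ * ‖Pj f j (1 / 2 + (u + y : ℝ) * I)‖ₑ := by
          refine lintegral_lintegral_swap ?_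
          have h4 : Continuous fun q : ℝ × ℝ => (2 : ℝ≥0∞) * ‖gs β (q.2 * I)‖ₑ := by
            have h5 : Continuous fun q : ℝ × ℝ => ‖gs β (q.2 * I)‖ₑ :=
              (hgc.comp continuous_snd).enorm
            exact ENNReal.continuous_const_mul (by norm_num) |>.comp h5
          exact (h4.measurable.mul hPc2.enorm.measurable).aemeasurable
      _ = ∫⁻ y in Ioc (-Real.log T) (Real.log T), 2 * ‖gs β (y * I)‖ₑ *
            ∫⁻ u in E, ‖Pj f j (1 / 2 + (u + y : ℝ) * I)‖ₑ := by
          refine lintegral_congr fun y => ?_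
          rw [lintegral_const_mul]
          have : Continuous fun u : ℝ => Pj f j (1 / 2 + (u + y : ℝ) * I) :=
            hPc.comp (continuous_id.add (continuous_const (y := y)))
          exact this.enorm.measurable
      _ ≤ ∫⁻ y in Ioc (-Real.log T) (Real.log T), 2 * ‖gs β (y * I)‖ₑ * ENNReal.ofReal M := by
          refine setLIntegral_mono' measurableSet_Ioc fun y hy => ?_
          have := hHol y (abs_le.2 ⟨hy.1.le, hy.2⟩)
          gcongr
      _ = 2 * (∫⁻ y in Ioc (-Real.log T) (Real.log T), ‖gs β (y * I)‖ₑ) * ENNReal.ofReal M := by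
          rw [lintegral_mul_const _ (by
            exact (hgc.enorm.measurable).const_mul 2), lintegral_const_mul _ hgc.enorm.measurable]
      _ ≤ 2 * 1 * ENNReal.ofReal M := by gcongr
      _ = ENNReal.ofReal (2 * M) := by
          rw [mul_one, ENNReal.ofReal_mul (by norm_num), ENNReal.ofReal_ofNat]
  have hfin : ∫ u in E, ‖KJ f Y β (Real.log T) j u‖ ≤ 2 * M := by
    by_cases hint : Integrable (fun u => ‖KJ f Y β (Real.log T) j u‖) (volume.restrict E)
    · have h1 := ofReal_integral_eq_lintegral_ofReal hint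
        (Filter.Eventually.of_forall fun u => norm_nonneg _)
      have h2 : ENNReal.ofReal (∫ u in E, ‖KJ f Y β (Real.log T) j u‖) ≤
          ENNReal.ofReal (2 * M) := by
        rw [h1]
        refine le_trans (le_of_eq ?_) hmain
        exact lintegral_congr fun u => ofReal_norm _
      exact (ENNReal.ofReal_le_ofReal_iff (by positivity)).1 h2
    · rw [integral_undef hint]
      positivity
  refine hfin.trans ?_
  have h6 := hT₂ T hTT₂
  have h7 : T ^ (-(c / 2)) = T ^ (-c) * T ^ (c / 2) := by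
    rw [← Real.rpow_add hT0]
    congr 1
    ring
  rw [h7, hM]
  have h8 : 0 ≤ W * T ^ (-c) := by positivity
  nlinarith

end Pool.Agent.H52.DP.BD2
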