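import Pool.Agent.H25.DP.Targets

/-!
# Two dilations: moments of a product of blocks of the same dilation
-/

set_option autoImplicit false

open Complex MeasureTheory Set Pool.Agent.H25.DL Pool.Agent.H25.DP

namespace Pool.Agent.H52.DP.MP

theorem mp (h1 : T_PX) (h2 : T_MV) : T_MP := by
  intro ι _ f a ε q hf ha hε
  have hε' : 0 < ε / (2 * q + 1) := by positivity
  obtain ⟨C₁, hC₁, hP⟩ := h1 (ι × Fin q) (fun x => f x.1) a (ε / (2 * q + 1))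
    (fun x => hf x.1) hε'
  obtain ⟨C₂, hC₂, hM⟩ := h2 a (2 ^ (Fintype.card (ι × Fin q) + 1)) ha
  refine ⟨C₂ * C₁ ^ 2, by positivity, fun j H W hW => ?_⟩
  obtain ⟨c, hc, hPj⟩ := hP (fun x => j x.1)
  have hSZ : SZ (fun x : ι × Fin q => j x.1) = SZ j ^ q := by
    unfold SZ
    rw [Fintype.prod_prod_type]
    simp [Finset.prod_pow]
  have hPq : ∀ s : ℂ, Pj (fun x : ι × Fin q => f x.1) (fun x => j x.1) s = Pj f j s ^ q := by
    intro s
    unfold Pj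
    rw [Fintype.prod_prod_type]
    simp [Finset.prod_pow]
  have hN := SZ_pos (fun x : ι × Fin q => j x.1)
  have hmv := hM (SZ (fun x : ι × Fin q => j x.1))
    (C₁ * (SZ (fun x : ι × Fin q => j x.1) : ℝ) ^ (ε / (2 * q + 1) - 1 / 2)) c hN hc H W hW
  have hS1 : (1 : ℝ) ≤ SZ j := by
    have := SZ_pos j
    exact_mod_cast this
  have hS0 : (0 : ℝ) < SZ j := by linarith
  have hlhs : ∀ t : ℝ, ‖Pj f j (1 / 2 + t * I)‖ ^ (2 * q) =
      ‖∑ n ∈ Finset.Ico (SZ (fun x : ι × Fin q => j x.1))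
        (2 ^ (Fintype.card (ι × Fin q) + 1) * SZ (fun x : ι × Fin q => j x.1)),
          c n * en n (a * t)‖ ^ 2 := by
    intro t
    rw [← hPj t, hPq, norm_pow, ← pow_mul, mul_comm 2 q]
  simp_rw [hlhs]
  refine hmv.trans ?_
  rw [hSZ, Nat.cast_pow]
  set S : ℝ := (SZ j : ℝ) with hS
  have hSq : (0 : ℝ) < S ^ q := by positivity
  have e1 : (C₁ * (S ^ q) ^ (ε / (2 * q + 1) - 1 / 2)) ^ 2 * S ^ q =
      C₁ ^ 2 * (S ^ q) ^ (2 * (ε / (2 * q + 1))) := by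
    rw [mul_pow, mul_assoc]
    congr 1
    rw [← Real.rpow_natCast ((S ^ q) ^ (ε / (2 * q + 1) - 1 / 2)) 2, ← Real.rpow_mul hSq.le]
    nth_rewrite 2 [← Real.rpow_one (S ^ q)]
    rw [← Real.rpow_add hSq]
    congr 1
    push_cast
    ring
  have e2 : (S ^ q) ^ (2 * (ε / (2 * q + 1))) ≤ S ^ ε := by
    rw [← Real.rpow_natCast S q, ← Real.rpow_mul hS0.le]
    refine Real.rpow_le_rpow_of_exponent_le hS1 ?_
    have h3 : (0 : ℝ) < 2 * q + 1 := by positivity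
    rw [mul_div_assoc', mul_div_assoc', div_le_iff₀ h3]
    nlinarith
  have e3 : 0 ≤ W + S ^ q := by positivity
  calc C₂ * (C₁ * (S ^ q) ^ (ε / (2 * q + 1) - 1 / 2)) ^ 2 * S ^ q * (W + S ^ q)
      = C₂ * ((C₁ * (S ^ q) ^ (ε / (2 * q + 1) - 1 / 2)) ^ 2 * S ^ q) * (W + S ^ q) := by ring
    _ = C₂ * (C₁ ^ 2 * (S ^ q) ^ (2 * (ε / (2 * q + 1)))) * (W + S ^ q) := by rw [e1]
    _ ≤ C₂ * (C₁ ^ 2 * S ^ ε) * (W + S ^ q) := by gcongr
    _ = C₂ * C₁ ^ 2 * S ^ ε * (W + S ^ q) := by ring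

end Pool.Agent.H52.DP.MP
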