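import Pool.Agent.H31.DP.Targets
import Pool.Agent.H91.LF.Basic

/-!
Module DC of the project DP: the finite form of the decoupling.
-/

set_option autoImplicit false

open Finset Filter Topology

namespace Pool.Agent.H52.DP

open Pool.Agent.H31.DP
open Pool.Agent.H91.LF (lz Bdd Mean abs_lz_le bdd_sum abs_mul_le_one)
open Pool.Agent.H24.T2 (Pset)

theorem abs_FF_le {l : ℕ} (h : Fin l → ℕ) (p : ℕ) (y : ℤ) : |FF h p y| ≤ 1 := by
  unfold FF
  rw [Finset.abs_prod]
  exact Finset.prod_le_one (fun i _ => abs_nonneg _) (fun i _ => abs_lz_le _)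

theorem abs_G4_le {l : ℕ} (h : Fin l → ℕ) (p : ℕ) (ω : Fin 3 → ℤ) : |G4 h p ω| ≤ 1 := by
  unfold G4
  exact abs_mul_le_one (abs_mul_le_one (abs_FF_le h p _) (abs_FF_le h p _))
    (abs_mul_le_one (abs_FF_le h p _) (abs_FF_le h p _))

theorem ind_nonneg (P : Prop) : 0 ≤ ind P := by
  unfold ind
  split_ifs <;> norm_num

theorem ind_le_one (P : Prop) : ind P ≤ 1 := by
  unfold ind
  split_ifs <;> norm_num

theorem abs_bal_le (p : ℕ) (z : ℤ) : |bal p z| ≤ p + 1 := by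
  unfold bal
  have hp : (0 : ℝ) ≤ p := Nat.cast_nonneg p
  have h0 := ind_nonneg ((p : ℤ) ∣ z)
  have h1 := ind_le_one ((p : ℤ) ∣ z)
  rw [abs_le]
  constructor <;> nlinarith

theorem bdd_dd {l : ℕ} (h : Fin l → ℕ) (p : ℕ) : Bdd (dd h p) := by
  refine ⟨(p : ℝ) * 1 * ((p + 1) * (p + 1) * 1), fun ω => ?_⟩
  unfold dd
  have hp : (0 : ℝ) ≤ p := Nat.cast_nonneg p
  rw [abs_mul, abs_mul, abs_mul, abs_mul, abs_of_nonneg hp, abs_of_nonneg (ind_nonneg _)]
  gcongr
  · exact ind_le_one _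
  · exact abs_bal_le p _
  · exact abs_bal_le p _
  · exact abs_G4_le h p ω

theorem avo_sum {ι : Type*} (s : Finset ι) (f : ι → (Fin 3 → ℤ) → ℝ) (x y : ℕ) :
    avo x y (fun ω => ∑ i ∈ s, f i ω) = ∑ i ∈ s, avo x y (f i) := by
  unfold avo
  rw [← Finset.sum_div]
  congr 1
  rw [Finset.sum_comm]
  refine Finset.sum_congr rfl (fun M _ => ?_)
  rw [← Finset.mul_sum, ← Finset.sum_div, Finset.sum_comm]

theorem pf_DC (hMD : StatementMD) (hUM : StatementUM) : StatementDC := by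
  obtain ⟨c₀, hc₀, hMD⟩ := hMD
  refine ⟨c₀, hc₀, fun l h θ m₀ hθ => ?_⟩
  by_contra hneg
  push Not at hneg
  choose x y hx hxy hbig using fun j : ℕ => hneg (j + m₀) (j + 1)
  have hlog : Tendsto (fun j => Real.log ((y j : ℝ) / x j)) atTop atTop := by
    refine tendsto_atTop_mono (f := fun j : ℕ => Real.log ((j : ℝ) + 1)) (fun j => ?_) ?_
    · have hxj : (0 : ℝ) < x j := by exact_mod_cast hx j
      have h1 : ((j : ℝ) + 1) * x j ≤ y j := by exact_mod_cast hxy j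
      refine Real.log_le_log (by positivity) ?_
      rw [le_div_iff₀ hxj]
      exact h1
    · exact Real.tendsto_log_atTop.comp
        (tendsto_atTop_add_const_right _ _ tendsto_natCast_atTop_atTop)
  obtain ⟨M, hM⟩ := hUM x y hx hlog
  obtain ⟨m, hm₀, hcard, hsum⟩ := hMD l h M (θ / 2) (max m₀ 1) (half_pos hθ)
  have hm1 : 1 ≤ m := le_trans (le_max_right _ _) hm₀
  have hmm : m₀ ≤ m := le_trans (le_max_left _ _) hm₀
  have hcpos : (0 : ℝ) < (Pset 1 m).card := by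
    have hmR : (0 : ℝ) < m := by exact_mod_cast hm1
    exact lt_of_lt_of_le (by positivity) hcard
  have hbdd : ∀ p ∈ Pset 1 m, Bdd (dd h p) := fun p _ => bdd_dd h p
  have hE : M.E (fun ω => ∑ p ∈ Pset 1 m, dd h p ω) = ∑ p ∈ Pset 1 m, M.E (dd h p) :=
    M.E_sum _ _ hbdd
  have hlow : θ * (Pset 1 m).card ≤ M.E (fun ω => ∑ p ∈ Pset 1 m, dd h p ω) := by
    refine hM _ _ (bdd_sum _ _ hbdd) ?_
    filter_upwards [eventually_ge_atTop m] with j hj
    rw [avo_sum]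
    exact le_of_lt (hbig j m hmm (by omega) hcard)
  have hup : M.E (fun ω => ∑ p ∈ Pset 1 m, dd h p ω) ≤ θ / 2 * (Pset 1 m).card := by
    rw [hE]
    exact le_trans (Finset.sum_le_sum (fun p _ => le_abs_self _)) hsum
  nlinarith

end Pool.Agent.H52.DP
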