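import Pool.Agent.H31.DP.Targets

/-!
Module PG of the project DP: the pigeonhole principle for short intervals.
-/

set_option autoImplicit false

open Finset

namespace Pool.Agent.H52.DP

open Pool.Agent.H31.DP

theorem pf_PG : StatementPG := by
  intro A m L hL hA
  classical
  set J : ℕ := (2 ^ m - 1) / L + 1 with hJ
  set f : ℕ → ℕ := fun p => (p - 2 ^ m - 1) / L with hf
  have hpow : 0 < 2 ^ m := Nat.two_pow_pos m
  have hpow2 : 2 ^ (m + 1) = 2 ^ m + 2 ^ m := by rw [pow_succ]; ring
  have hmaps : ∀ p ∈ A, f p ∈ Finset.range J := by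
    intro p hp
    obtain ⟨h1, h2⟩ := hA p hp
    rw [Finset.mem_range, hJ, hf]
    have h3 : p - 2 ^ m - 1 ≤ 2 ^ m - 1 := by omega
    exact Nat.lt_succ_of_le (Nat.div_le_div_right h3)
  have hne : (Finset.range J).Nonempty := ⟨0, by rw [Finset.mem_range, hJ]; exact Nat.succ_pos _⟩
  obtain ⟨i, hi, hmax⟩ := Finset.exists_max_image (Finset.range J)
    (fun i => (A.filter (fun p => f p = i)).card) hne
  have hcard : A.card ≤ J * (A.filter (fun p => f p = i)).card := by
    rw [Finset.card_eq_sum_card_fiberwise (f := f) (t := Finset.range J) (fun p hp => hmaps p hp)]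
    calc ∑ b ∈ Finset.range J, (A.filter (fun p => f p = b)).card
        ≤ ∑ _b ∈ Finset.range J, (A.filter (fun p => f p = i)).card :=
          Finset.sum_le_sum (fun b hb => hmax b hb)
      _ = J * (A.filter (fun p => f p = i)).card := by
          rw [Finset.sum_const, Finset.card_range, smul_eq_mul]
  have hiL : i * L ≤ 2 ^ m - 1 := by
    have h1 : i ≤ (2 ^ m - 1) / L := by
      have := Finset.mem_range.1 hi
      omega
    calc i * L ≤ (2 ^ m - 1) / L * L := Nat.mul_le_mul_right L h1
      _ ≤ 2 ^ m - 1 := Nat.div_mul_le_self _ _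
  refine ⟨2 ^ m + i * L, Nat.le_add_right _ _, by omega, ?_⟩
  have hsub : A.filter (fun p => f p = i) ⊆
      A.filter (fun p => 2 ^ m + i * L < p ∧ p ≤ 2 ^ m + i * L + L) := by
    intro p hp
    rw [Finset.mem_filter] at hp ⊢
    obtain ⟨hpA, hpi⟩ := hp
    obtain ⟨h1, h2⟩ := hA p hpA
    have h3 : i * L ≤ p - 2 ^ m - 1 := by
      rw [← hpi]
      exact Nat.div_mul_le_self _ _
    have h4 : p - 2 ^ m - 1 < (i + 1) * L := by
      rw [← hpi]
      exact Nat.lt_mul_of_div_lt (Nat.lt_succ_self _) hL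
    have h5 : (i + 1) * L = i * L + L := by ring
    refine ⟨hpA, by omega, by omega⟩
  have hJL : J * L ≤ 2 ^ m + L := by
    have : J * L = (2 ^ m - 1) / L * L + L := by rw [hJ]; ring
    have h2 := Nat.div_mul_le_self (2 ^ m - 1) L
    omega
  have hfin : A.card * L ≤ (2 ^ m + L) *
      (A.filter (fun p => 2 ^ m + i * L < p ∧ p ≤ 2 ^ m + i * L + L)).card := by
    calc A.card * L ≤ J * (A.filter (fun p => f p = i)).card * L := Nat.mul_le_mul_right L hcard
      _ = J * L * (A.filter (fun p => f p = i)).card := by ring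
      _ ≤ (2 ^ m + L) * (A.filter (fun p => 2 ^ m + i * L < p ∧ p ≤ 2 ^ m + i * L + L)).card :=
          Nat.mul_le_mul hJL (Finset.card_le_card hsub)
  exact_mod_cast hfin

end Pool.Agent.H52.DP
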